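import Pool.Agent.Lib.MP_8ccf7f_al.FG

/-!
Deformations of unital algebras and universal deformation formulas: negative answer to Q1, for a
finitely generated algebra.

The definitions are in `Pool/Agent/Lib/MP_8ccf7f_al/Defs.lean`.
-/

set_option autoImplicit false

open IsLocalRing
open Pool.Agent.Lib.MP_8ccf7f_al

namespace Pool.Agent.Results.MP_8ccf7f_al.Disproof

/-- Negative answer to Q1. Let `k` be a field. There is a finitely generated unital associative
`k`-algebra `A` such that, for every complete local Noetherian `k`-algebra `R ≠ k` with residue
field `k`, there is an `R`-deformation of `A` that is not equivalent to any deformation coming from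
a universal deformation formula, for any bialgebra `B` (in any universe), any `B`-module algebra
structure on `A` and any universal deformation formula `F` over `R` based on `B`. -/
theorem result.{u, v, w} (k : Type u) [Field k] :
    ∃ (A : Type u) (_ : Ring A) (_ : Algebra k A), Algebra.FiniteType k A ∧
      ∀ (R : Type v) [CommRing R] [Algebra k R] [IsLocalRing R] [IsNoetherianRing R]
        [IsAdicComplete (maximalIdeal R) R],
        Function.Bijective (algebraMap k (ResidueField R)) → maximalIdeal R ≠ ⊥ →
          ∃ D : Deformation k R A, ¬ ComesFromUDF.{w} D :=
  ⟨FG.Alg k, inferInstance, inferInstance, FG.finiteType k, fun R _ _ _ _ _ hres hR =>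
    FG.main k R hres hR⟩

end Pool.Agent.Results.MP_8ccf7f_al.Disproof
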